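import Pool.Agent.H30.BQR.Link

/-!
# The graded characters of the batch quotient rings for constant batches

`r` batches of `d` variables, `n = r d`; the variable `x_{(i-1)d+j}` of the problem is
`X (i-1, j-1)`, so that the batches are the fibres of the first projection of `Fin r × Fin d`.
-/

set_option autoImplicit false

open MvPolynomial

namespace Pool.Agent.Results.MP_9124ab_co.GradedCharacters

/-- The ideal `J_{α,k}`, `α = (d, ..., d)`: generated by `h_m` of the variables of each batch `i`,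
`k - d + 1 ≤ m ≤ k`, and by `e_m` of all the variables, `n - k + 1 ≤ m ≤ n`. -/
noncomputable def J (r d k : ℕ) : Ideal (MvPolynomial (Fin r × Fin d) ℚ) :=
  Ideal.span ({f | ∃ (i : Fin r) (m : ℕ), k < m + d ∧ m ≤ k ∧
      f = rename (fun j : Fin d => (i, j)) (hsymm (Fin d) ℚ m)} ∪
    {f | ∃ m : ℕ, r * d < m + k ∧ m ≤ r * d ∧ f = esymm (Fin r × Fin d) ℚ m})

/-- The ring `S_{α,k}`. -/
def S (r d k : ℕ) : Type := MvPolynomial (Fin r × Fin d) ℚ ⧸ J r d k

noncomputable instance (r d k : ℕ) : CommRing (S r d k) :=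
  inferInstanceAs (CommRing (MvPolynomial (Fin r × Fin d) ℚ ⧸ J r d k))

noncomputable instance (r d k : ℕ) : Algebra ℚ (S r d k) :=
  inferInstanceAs (Algebra ℚ (MvPolynomial (Fin r × Fin d) ℚ ⧸ J r d k))

/-- The quotient map. -/
noncomputable def toS (r d k : ℕ) : MvPolynomial (Fin r × Fin d) ℚ →ₐ[ℚ] S r d k :=
  Ideal.Quotient.mkₐ ℚ (J r d k)

/-- The homogeneous part of degree `m` of `S_{α,k}`: the image of the forms of degree `m`. -/
noncomputable def Sdeg (r d k m : ℕ) : Submodule ℚ (S r d k) :=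
  (homogeneousSubmodule (Fin r × Fin d) ℚ m).map (toS r d k).toLinearMap

variable {r d : ℕ}

/-- `w` maps the batch `i` onto the batch `σ i`, for all `i`: the element `w` of the wreath product
`𝔖_d ≀ 𝔖_r` lies over the permutation `σ` of the batches. The elements over `1` are those of the
Young subgroup `𝔖_α`. -/
def Over (w : Equiv.Perm (Fin r × Fin d)) (σ : Equiv.Perm (Fin r)) : Prop := ∀ v, (w v).1 = σ v.1

lemma J_le {w : Equiv.Perm (Fin r × Fin d)} {σ : Equiv.Perm (Fin r)} (h : Over w σ) (k : ℕ) :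
    J r d k ≤ (J r d k).comap (rename w : MvPolynomial (Fin r × Fin d) ℚ →ₐ[ℚ] _) := by
  unfold J
  rw [Ideal.span_le]
  rintro f (⟨i, m, h1, h2, rfl⟩ | ⟨m, h1, h2, rfl⟩)
  · rw [SetLike.mem_coe, Ideal.mem_comap, ← H30.BQR.hh_bat, H30.BQR.rename_hh, H30.BQR.image_bat (σ := σ) h,
      H30.BQR.hh_bat]
    exact Ideal.subset_span (Or.inl ⟨σ i, m, h1, h2, rfl⟩)
  · rw [SetLike.mem_coe, Ideal.mem_comap, rename_esymm]
    exact Ideal.subset_span (Or.inr ⟨m, h1, h2, rfl⟩)

/-- The action of `w` on `S_{α,k}`: the algebra homomorphism with `x_v ↦ x_{w v}`. -/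
noncomputable def act {w : Equiv.Perm (Fin r × Fin d)} {σ : Equiv.Perm (Fin r)} (h : Over w σ) (k : ℕ) :
    S r d k →ₐ[ℚ] S r d k :=
  Ideal.quotientMapₐ (J r d k) (rename w : MvPolynomial (Fin r × Fin d) ℚ →ₐ[ℚ] _) (J_le h k)

/-- The trace of the restriction of a linear map to a subspace it preserves. -/
noncomputable def trOn {M : Type} [AddCommGroup M] [Module ℚ M] (U : Submodule ℚ M) (f : M →ₗ[ℚ] M)
    (hf : ∀ x ∈ U, f x ∈ U) : ℚ :=
  LinearMap.trace ℚ U (f.restrict hf)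

lemma act_mem_Sdeg {w : Equiv.Perm (Fin r × Fin d)} {σ : Equiv.Perm (Fin r)} (h : Over w σ) (k m : ℕ) :
    ∀ x ∈ Sdeg r d k m, (act h k).toLinearMap x ∈ Sdeg r d k m := by
  rintro _ ⟨f, hf, rfl⟩
  exact ⟨rename w f, IsHomogeneous.rename_isHomogeneous hf, rfl⟩

/-- The graded character of `S_{α,k}` at `w`: the series `∑ m, tr(w | S_m) q^m`, `q = X`. -/
noncomputable def grChar {w : Equiv.Perm (Fin r × Fin d)} {σ : Equiv.Perm (Fin r)} (h : Over w σ) (k : ℕ) :
    PowerSeries ℚ :=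
  PowerSeries.mk fun m => trOn (Sdeg r d k m) (act h k).toLinearMap (act_mem_Sdeg h k m)

/-- The degree `m` part of the ring of invariants `(S_{α,k})^{𝔖_α}`. -/
noncomputable def SInv (r d k m : ℕ) : Submodule ℚ (S r d k) where
  carrier := {x | x ∈ Sdeg r d k m ∧ ∀ (u : Equiv.Perm (Fin r × Fin d)) (hu : Over u 1), act hu k x = x}
  add_mem' := by
    rintro a b ⟨ha, ha'⟩ ⟨hb, hb'⟩
    exact ⟨Submodule.add_mem _ ha hb, fun u hu => by rw [map_add, ha', hb']⟩
  zero_mem' := ⟨Submodule.zero_mem _, fun u hu => by rw [map_zero]⟩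
  smul_mem' := by
    rintro c x ⟨hx, hx'⟩
    exact ⟨Submodule.smul_mem _ _ hx, fun u hu => by rw [map_smul, hx']⟩

lemma act_mul {w u w' : Equiv.Perm (Fin r × Fin d)} {σ τ ρ : Equiv.Perm (Fin r)} (h : Over w σ) (hu : Over u τ)
    (h' : Over w' ρ) (he : w' = w * u) (k : ℕ) (x : S r d k) : act h' k x = act h k (act hu k x) := by
  subst he
  obtain ⟨f, rfl⟩ := Ideal.Quotient.mk_surjective x
  change Ideal.Quotient.mk _ (rename (w * u : Equiv.Perm _) f) = Ideal.Quotient.mk _ (rename w (rename u f))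
  rw [rename_rename]; rfl

lemma act_mem_SInv {w : Equiv.Perm (Fin r × Fin d)} {σ : Equiv.Perm (Fin r)} (h : Over w σ) (k m : ℕ) :
    ∀ x ∈ SInv r d k m, (act h k).toLinearMap x ∈ SInv r d k m := by
  rintro x ⟨hx, hx'⟩
  refine ⟨act_mem_Sdeg h k m x hx, fun u hu => ?_⟩
  have h1 : Over (w⁻¹ * u * w) 1 := show H30.BQR.Over (w⁻¹ * u * w) 1 by
    have := H30.BQR.Over_mul (H30.BQR.Over_mul (H30.BQR.Over_inv h) hu) h
    simpa using this
  have h2 : Over (u * w) σ := show H30.BQR.Over (u * w) σ by simpa using H30.BQR.Over_mul (σ := 1) hu h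
  rw [AlgHom.toLinearMap_apply, ← act_mul hu h h2 rfl, act_mul h h1 h2 (by group), hx' _ h1]

/-- The graded character of the `𝔖_r`-module `(S_{α,k})^{𝔖_α}` at `σ`: the series of the traces of
`σ` on its homogeneous parts, `σ` acting as any `w` over `σ` does. -/
noncomputable def grCharInv {w : Equiv.Perm (Fin r × Fin d)} {σ : Equiv.Perm (Fin r)} (h : Over w σ) (k : ℕ) :
    PowerSeries ℚ :=
  PowerSeries.mk fun m => trOn (SInv r d k m) (act h k).toLinearMap (act_mem_SInv h k m)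

/-- The set of the cycles (fixed points included) of a permutation, as a set of subsets. -/
def cycles {A : Type} [Fintype A] [DecidableEq A] (π : Equiv.Perm A) : Finset (Finset A) :=
  Finset.univ.image fun v => Finset.univ.filter fun u => π.SameCycle v u

/-- The Gaussian binomial coefficients `[a choose b]` with parameter `Q`, by the `Q`-Pascal rule. -/
noncomputable def qBinom (Q : PowerSeries ℚ) : ℕ → ℕ → PowerSeries ℚ
  | _, 0 => 1
  | 0, _ + 1 => 0
  | a + 1, b + 1 => qBinom Q a b + Q ^ (b + 1) * qBinom Q a (b + 1)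

/-- `∏_{c cycle of w} (1 - q^{|c|})`. -/
noncomputable def cycleProd (w : Equiv.Perm (Fin r × Fin d)) : PowerSeries ℚ :=
  ∏ c ∈ cycles w, (1 - PowerSeries.X ^ c.card)

/-- `∏_{c cycle of σ} ∏_{i < d} (1 - q^{|c| (m - i)})`. -/
noncomputable def batchProd (d m : ℕ) (σ : Equiv.Perm (Fin r)) : PowerSeries ℚ :=
  ∏ c ∈ cycles σ, ∏ i ∈ Finset.range d, (1 - PowerSeries.X ^ (c.card * (m - i)))

/-- `∏_{c cycle of σ} [m choose d]_{q^{|c|}}`. -/
noncomputable def batchBinom (d m : ℕ) (σ : Equiv.Perm (Fin r)) : PowerSeries ℚ :=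
  ∏ c ∈ cycles σ, qBinom (PowerSeries.X ^ c.card) m d

/-- `(-1)^t q^{t (n - k) + t (t + 1) / 2} [k choose t]_q`. -/
noncomputable def coef (n k t : ℕ) : PowerSeries ℚ :=
  (-1) ^ t * PowerSeries.X ^ (t * (n - k) + t * (t + 1) / 2) * qBinom PowerSeries.X k t

/-! ### comparison with the helper files -/

lemma qBinom_eq (Q : PowerSeries ℚ) (a : ℕ) : ∀ b, qBinom Q a b = H30.BQR.qBin Q a b := by
  induction a with
  | zero => intro b; cases b <;> rfl
  | succ a ih =>
    intro b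
    cases b with
    | zero => rfl
    | succ b => rw [qBinom, H30.BQR.qBin, ih, ih]

/-- the comparison map -/
noncomputable def cmp (k m : ℕ) :
    (homogeneousSubmodule (Fin r × Fin d) ℚ m ⧸ H30.BQR.gp (J r d k) m) →ₗ[ℚ] Sdeg r d k m :=
  (H30.BQR.gp (J r d k) m).liftQ
    (((toS r d k).toLinearMap ∘ₗ (homogeneousSubmodule (Fin r × Fin d) ℚ m).subtype).codRestrict
      (Sdeg r d k m) (fun f => ⟨f, f.2, rfl⟩)) (by
    intro f hf
    rw [LinearMap.mem_ker]
    apply Subtype.ext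
    exact Ideal.Quotient.eq_zero_iff_mem.mpr hf)

lemma cmp_mk (k m : ℕ) (f : homogeneousSubmodule (Fin r × Fin d) ℚ m) :
    (cmp (r := r) (d := d) k m (Submodule.Quotient.mk f) : S r d k) =
      toS r d k (f : MvPolynomial (Fin r × Fin d) ℚ) := rfl

lemma cmp_bij (k m : ℕ) : Function.Bijective (cmp (r := r) (d := d) k m) := by
  constructor
  · rw [← LinearMap.ker_eq_bot, LinearMap.ker_eq_bot']
    intro x hx
    obtain ⟨f, rfl⟩ := Submodule.Quotient.mk_surjective _ x
    rw [Submodule.Quotient.mk_eq_zero]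
    have h1 := congrArg Subtype.val hx
    rw [cmp_mk] at h1
    exact Ideal.Quotient.eq_zero_iff_mem.mp h1
  · rintro ⟨_, f, hf, rfl⟩
    exact ⟨Submodule.Quotient.mk ⟨f, hf⟩, rfl⟩

lemma J_eq {k : ℕ} (hdk : d ≤ k) : J r d k = H30.BQR.Jk r d k k := H30.BQR.span_eq_Jk hdk

lemma stab {w : Equiv.Perm (Fin r × Fin d)} {σ : Equiv.Perm (Fin r)} (h : Over w σ) (k : ℕ) :
    H30.BQR.Stab w (J r d k) := fun _ hf => J_le h k hf

lemma grChar_eq {w : Equiv.Perm (Fin r × Fin d)} {σ : Equiv.Perm (Fin r)} (h : Over w σ) {k : ℕ} (hdk : d ≤ k) :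
    grChar h k = H30.BQR.Chi w (H30.BQR.Jk r d k k) (H30.BQR.Stab_Jk (σ := σ) h k k) := by
  have h1 : ∀ (I : Ideal (MvPolynomial (Fin r × Fin d) ℚ)) (hI : I = J r d k) (hs : H30.BQR.Stab w I),
      grChar h k = H30.BQR.Chi w I hs := by
    rintro _ rfl hs
    unfold grChar H30.BQR.Chi trOn
    congr 1
    funext m
    unfold H30.BQR.chi H30.BQR.qtr
    refine H30.BQR.trace_bij (cmp (r := r) (d := d) k m) (cmp_bij k m) _ _ ?_
    intro a
    obtain ⟨f, rfl⟩ := Submodule.Quotient.mk_surjective _ a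
    rfl
  exact h1 _ (J_eq hdk).symm _

/-- invariants, for a general ideal -/
lemma grCharInv_eq {w : Equiv.Perm (Fin r × Fin d)} {σ : Equiv.Perm (Fin r)} (h : Over w σ) {k : ℕ} (hdk : d ≤ k) :
    grCharInv h k = PowerSeries.mk fun m => H30.BQR.ichi (σ := σ) h k k m := by
  unfold grCharInv
  congr 1
  funext m
  unfold H30.BQR.ichi trOn
  -- the comparison map for the ideal `Jk`
  have hJ := J_eq (r := r) hdk
  have key : ∃ φ : (homogeneousSubmodule (Fin r × Fin d) ℚ m ⧸ H30.BQR.gp (H30.BQR.Jk r d k k) m) →ₗ[ℚ] Sdeg r d k m,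
      Function.Bijective φ ∧ ∀ f, (φ (Submodule.Quotient.mk f) : S r d k) =
        toS r d k (f : MvPolynomial (Fin r × Fin d) ℚ) := by
    rw [← hJ]
    exact ⟨cmp k m, cmp_bij k m, fun f => rfl⟩
  obtain ⟨φ, hφ, hφ2⟩ := key
  have hcomm : ∀ {u : Equiv.Perm (Fin r × Fin d)} {τ : Equiv.Perm (Fin r)} (hu : Over u τ)
      (x : homogeneousSubmodule (Fin r × Fin d) ℚ m ⧸ H30.BQR.gp (H30.BQR.Jk r d k k) m),
      (φ (H30.BQR.act (σ := τ) hu k k m x) : S r d k) = act hu k (φ x : S r d k) := by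
    intro u τ hu x
    obtain ⟨f, rfl⟩ := Submodule.Quotient.mk_surjective _ x
    rw [H30.BQR.act_mk, hφ2, hφ2]
    rfl
  have hmem : ∀ x ∈ H30.BQR.InvS r d k k m, (φ x : S r d k) ∈ SInv r d k m := by
    intro x hx
    refine ⟨(φ x).2, fun u hu => ?_⟩
    rw [← hcomm hu, hx u hu]
  set ψ : H30.BQR.InvS r d k k m →ₗ[ℚ] SInv r d k m :=
    (((Sdeg r d k m).subtype ∘ₗ φ) ∘ₗ (H30.BQR.InvS r d k k m).subtype).codRestrict _
      (fun x => hmem x x.2) with hψ
  have hψc : ∀ x, (ψ x : S r d k) = (φ (x : _ ⧸ _) : S r d k) := fun x => rfl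
  refine H30.BQR.trace_bij ψ ⟨?_, ?_⟩ _ _ ?_
  · intro x y hxy
    have h1 := congrArg Subtype.val hxy
    rw [hψc, hψc] at h1
    exact Subtype.ext (hφ.1 (Subtype.ext h1))
  · rintro ⟨y, hy, hy'⟩
    obtain ⟨x, hx⟩ := hφ.2 ⟨y, hy⟩
    have hx2 : (φ x : S r d k) = y := by rw [hx]
    refine ⟨⟨x, ?_⟩, ?_⟩
    · intro u hu
      apply hφ.1
      apply Subtype.ext
      rw [hcomm hu, hx2]
      exact hy' u hu
    · apply Subtype.ext
      rw [hψc]
      exact hx2
  · intro x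
    apply Subtype.ext
    change act h k (ψ x : S r d k) = (ψ _ : S r d k)
    rw [hψc, hψc]
    exact (hcomm h (x : _ ⧸ _)).symm

lemma trunc_sum {k : ℕ} (hdk : d ≤ k) (F : ℕ → PowerSeries ℚ)
    (hF : ∀ t, k - t < d → F t = 0) :
    ∑ t ∈ Finset.range (k + 1), F t = ∑ t ∈ Finset.range (k - d + 1), F t := by
  symm
  apply Finset.sum_subset
  · intro t ht
    rw [Finset.mem_range] at ht ⊢
    omega
  · intro t ht ht'
    rw [Finset.mem_range] at ht ht'
    exact hF t (by omega)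

/-- **The graded characters of `S_{α,k}` and of `(S_{α,k})^{𝔖_α}`.** -/
theorem result (r d k : ℕ) (hr : 0 < r) (hdk : d ≤ k) :
    -- for `k > n` the ring is zero
    (r * d < k → J r d k = ⊤) ∧
    (k ≤ r * d → ∀ (w : Equiv.Perm (Fin r × Fin d)) (σ : Equiv.Perm (Fin r)) (h : Over w σ),
      -- the graded character of the module `S_{α,k}` over the wreath product, at `w`
      (grChar h k * cycleProd w =
        ∑ t ∈ Finset.range (k - d + 1), coef (r * d) k t * batchProd d (k - t) σ) ∧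
      -- the graded character of the `𝔖_r`-module of invariants, at `σ`
      (grCharInv h k =
        ∑ t ∈ Finset.range (k - d + 1), coef (r * d) k t * batchBinom d (k - t) σ)) := by
  refine ⟨fun h => ?_, fun hk w σ h => ⟨?_, ?_⟩⟩
  · rw [J_eq hdk]; exact H30.BQR.Jk_top h
  · rw [grChar_eq h hdk]
    have h1 := H30.BQR.Q2_internal (σ := σ) hr h k hk
    have h2 : cycleProd w = ∏ c ∈ H30.BQR.cyc w, (1 - PowerSeries.X ^ c.card) := rfl
    rw [h2, h1]
    simp only [← qBinom_eq]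
    refine trunc_sum hdk _ ?_
    intro t ht
    have h3 : H30.BQR.Pj d σ (k - t) = 0 := by
      unfold H30.BQR.Pj
      refine Finset.prod_eq_zero (H30.BQR.cl_mem_cyc σ ⟨0, hr⟩) (Finset.prod_eq_zero (Finset.mem_range.mpr ht) ?_)
      simp
    rw [h3, mul_zero]
  · rw [grCharInv_eq h hdk]
    have h1 := H30.BQR.Q1_internal (σ := σ) hr h k hk
    rw [h1]
    simp only [← qBinom_eq]
    refine trunc_sum hdk _ ?_
    intro t ht
    have h4 : ∀ (Q : PowerSeries ℚ) (a : ℕ), ∀ b, a < b → qBinom Q a b = 0 := by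
      intro Q a
      induction a with
      | zero =>
        intro b hb
        obtain ⟨b, rfl⟩ : ∃ j, b = j + 1 := ⟨b - 1, by omega⟩
        rfl
      | succ a ih =>
        intro b hb
        obtain ⟨b, rfl⟩ : ∃ j, b = j + 1 := ⟨b - 1, by omega⟩
        rw [qBinom, ih b (by omega), ih (b + 1) (by omega)]; simp
    rw [Finset.prod_eq_zero (H30.BQR.cl_mem_cyc σ ⟨0, hr⟩) (h4 _ _ _ ht), mul_zero]

end Pool.Agent.Results.MP_9124ab_co.GradedCharacters
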